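import Pool.Agent.H99.PZ.Cmp
import Pool.Agent.H75.S6C.Mon

/-!
# Labels in one normal form (row PZN)
-/

set_option autoImplicit false

namespace Pool.PZ

open Finset Real
open Pool.Agent.H49.Ent Pool.Agent.H32.Dense Pool.STK Pool.KA Pool.KSAT Pool.K2S Pool.PB Pool.KS6
open Pool.ZCL Pool.S6C

theorem two_orders : ∀ i₀ iu iN iu' iN' : Fin 3, (∀ j : Fin 3, j = i₀ ∨ j = iu ∨ j = iN) →
    (∀ j : Fin 3, j = i₀ ∨ j = iu' ∨ j = iN') →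
    (iu' = iu ∧ iN' = iN) ∨ (iu' = iN ∧ iN' = iu) := by
  decide

theorem N2.hered {J : ℕ} {F : Fam 3 J} {i₀ iu iN : Fin 3} {r₀ r₁ w₀ l₀ p₀ w₁ l₁ p₁ q k : ℕ}
    {y0 y1 : F.Ω → Pln} {A B : F.Ω → Prop} (hB : Sub B A)
    (h : N2 F i₀ iu iN r₀ r₁ w₀ l₀ p₀ w₁ l₁ p₁ q k y0 y1 A) :
    N2 F i₀ iu iN r₀ r₁ w₀ l₀ p₀ w₁ l₁ p₁ q k y0 y1 B := by
  obtain ⟨a1, a2, a3, a4, ⟨f5, a5⟩, ⟨f6, a6⟩, a7, ⟨f8, a8⟩, ⟨f9, a9⟩, b4, b5, b6, α, ν, c1⟩ := h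
  exact ⟨a1, a2, a3, fun ω hω => a4 ω (hB ω hω), ⟨f5, fun ω hω => a5 ω (hB ω hω)⟩,
    ⟨f6, fun ω hω => a6 ω (hB ω hω)⟩, fun ω hω => a7 ω (hB ω hω),
    ⟨f8, fun ω hω => a8 ω (hB ω hω)⟩, ⟨f9, fun ω hω => a9 ω (hB ω hω)⟩,
    fun ω hω => b4 ω (hB ω hω), fun ω hω => b5 ω (hB ω hω),
    fun ω hω => b6 ω (hB ω hω), α, ν, fun ω hω => c1 ω (hB ω hω)⟩

theorem qN2_hered (i₀ : Fin 3) (P₀ P₁ w₀ l₀ p₀ w₁ l₁ p₁ q h : ℝ) (J : ℕ) (F : Fam 3 J) :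
    Hered (qN2 i₀ P₀ P₁ w₀ l₀ p₀ w₁ l₁ p₁ q h J F) := by
  rintro A B hB ⟨iu, iN, y0, y1, h⟩
  exact ⟨iu, iN, y0, y1, h.hered hB⟩

/-! ### The constants -/

section num

variable {x s k l : ℕ}

theorem num_a (h : x + s + 12 ≤ k + l) :
    (80 : ℝ) / (1 / 2 ^ (x + 1) * (1 / 2 ^ s / 8)) ≤ 2 ^ k * 2 ^ l / 2 := by
  have e1 : (80 : ℝ) / (1 / 2 ^ (x + 1) * (1 / 2 ^ s / 8)) = 1280 * 2 ^ (x + s) := by
    rw [pow_succ, pow_add]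
    field_simp
    norm_num
  have h1 : (2 : ℝ) ^ (x + s + 12) ≤ 2 ^ (k + l) := pow_le_pow_right₀ (by norm_num) h
  rw [pow_add _ (x + s), pow_add _ k] at h1
  rw [e1]
  have : (0 : ℝ) < 2 ^ (x + s) := by positivity
  norm_num at h1
  linarith only [this, h1]

theorem num_b (h : x + 10 ≤ k) (h' : 2 * x + s + 20 ≤ k + l) :
    (40 : ℝ) / (1 / 2 ^ (x + 1)) + 80 / (1 / 2 ^ (x + 1) * (1 / 2 ^ s / 8)) *
      (22 / (1 / 2 ^ (x + 1)) * (1 / 2 ^ l)) ≤ 2 ^ k / 2 := by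
  have e0 : (40 : ℝ) / (1 / 2 ^ (x + 1)) = 80 * 2 ^ x := by
    rw [pow_succ]
    field_simp
    norm_num
  have e1 : (80 : ℝ) / (1 / 2 ^ (x + 1) * (1 / 2 ^ s / 8)) *
      (22 / (1 / 2 ^ (x + 1)) * (1 / 2 ^ l)) = 56320 * 2 ^ (2 * x + s) / 2 ^ l := by
    have : (2 : ℝ) ^ (2 * x + s) = 2 ^ x * 2 ^ x * 2 ^ s := by
      rw [pow_add, two_mul, pow_add]
    rw [this, pow_succ]
    field_simp
    norm_num
  have h1 : (2 : ℝ) ^ (2 * x + s + 20) ≤ 2 ^ (k + l) := pow_le_pow_right₀ (by norm_num) h'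
  rw [pow_add _ (2 * x + s), pow_add _ k] at h1
  have h2 : (2 : ℝ) ^ (x + 10) ≤ 2 ^ k := pow_le_pow_right₀ (by norm_num) h
  rw [pow_add _ x] at h2
  have h3 : 56320 * (2 : ℝ) ^ (2 * x + s) / 2 ^ l ≤ 2 ^ k / 8 := by
    rw [div_le_iff₀ (by positivity)]
    have : (0 : ℝ) < 2 ^ (2 * x + s) := by positivity
    norm_num at h1
    linarith only [this, h1]
  rw [e0, e1]
  have : (0 : ℝ) < 2 ^ x := by positivity
  norm_num at h2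
  linarith only [h3, this, h2]

theorem num_c (h : x + 10 ≤ k) : (22 : ℝ) / (1 / 2 ^ (x + 1)) ≤ 2 ^ k / 4 := by
  have e0 : (22 : ℝ) / (1 / 2 ^ (x + 1)) = 44 * 2 ^ x := by
    rw [pow_succ]
    field_simp
    norm_num
  have h2 : (2 : ℝ) ^ (x + 10) ≤ 2 ^ k := pow_le_pow_right₀ (by norm_num) h
  rw [pow_add _ x] at h2
  rw [e0]
  have : (0 : ℝ) < 2 ^ x := by positivity
  norm_num at h2
  linarith only [this, h2]

end num

/-! ### One family -/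

section one

variable {J : ℕ} {F : Fam 3 J}

/-- A label in one of the two normal forms gives a label in the normal form `(iu, iN)`. -/
theorem exists_nl {i₀ iu iN : Fin 3} (hi : ∀ j : Fin 3, j = i₀ ∨ j = iu ∨ j = iN)
    {r w lam P r₁ w₁ lam₁ P₁ w' : ℕ} (hr : r ≤ J) (hw : w ≤ w') (hr₁ : r₁ ≤ J) (hw₁ : w₁ ≤ w')
    (hw' : w' ≤ J) (hP₁ : w₁ + lam₁ ≤ P₁) {A B : F.Ω → Prop} (hB : Sub B A)
    {y z : F.Ω → Pln} (hy : RL F i₀ iu iN r w lam P A y)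
    (hz : RL F i₀ iu iN r₁ w₁ lam₁ P₁ A z ∨ RL F i₀ iN iu r₁ w₁ lam₁ P₁ A z)
    {δ μ ρ η : ℝ} (hδ : 0 < δ) (hμ : 0 < μ)
    {e n : (Fin 3 → ℤ) × (ℕ × F.ζ) → Fin 3 → ℝ} (hl : OnL i₀ ρ (Fam.pt F) F.d A e n)
    (hρ : 0 ≤ ρ) (hρη : ρ ≤ η) (hE : (2 : ℝ) ^ w / 2 ^ P ≤ η) (hE₁ : (2 : ℝ) ^ w₁ / 2 ^ P₁ ≤ η)
    (hη : 2 ^ 19 * η ≤ δ * μ) (hT : Tn F i₀ δ μ w' A B e) :
    ∃ z' : F.Ω → Pln, NL F i₀ iu iN δ r₁ w₁ lam₁ P₁ A B z' := by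
  rcases hz with hz | hz
  · exact ⟨z, hz.nl δ hr₁ hB⟩
  · exact ⟨_, hz.nl_swp δ hr₁ hP₁ hB
      (s_low hi hr hw hr₁ hw₁ hw' hB hy hz hδ hμ hl hρ hρη hE hE₁ hη hT)⟩

/-- **Two labels in one normal form**, one family. -/
theorem n2_one {i₀ iu iN : Fin 3} (hi : ∀ j : Fin 3, j = i₀ ∨ j = iu ∨ j = iN)
    {r₀ r₁ w₀ l₀ p₀ w₁ l₁ p₁ q q' x s k : ℕ} {A B : F.Ω → Prop} (hB : Sub B A)
    (hr₀ : r₀ ≤ J) (hr₁ : r₁ ≤ J) (hw : w₀ ≤ w₁) (hw₁ : w₁ ≤ J) (hP : w₀ + l₀ ≤ p₀)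
    (hP' : w₁ + l₁ ≤ p₁) (hpp : p₀ ≤ p₁) (hll : l₀ ≤ l₁) {y0 y1 : F.Ω → Pln}
    (h0 : RL F i₀ iu iN r₀ w₀ l₀ p₀ A y0)
    (h1 : RL F i₀ iu iN r₁ w₁ l₁ p₁ A y1 ∨ RL F i₀ iN iu r₁ w₁ l₁ p₁ A y1)
    {e n : (Fin 3 → ℤ) × (ℕ × F.ζ) → Fin 3 → ℝ} (hl : OnL i₀ (1 / 2 ^ q) (Fam.pt F) F.d A e n)
    (hT : Tn F i₀ (1 / 2 ^ (x + 1)) (1 / 2 ^ s) w₁ A B e)
    (hb : ∀ ω, B ω → ∀ j, |e (Fam.pt F ω) j| ≤ 2) (c1 : s + x + 20 ≤ q)
    (c2 : w₁ + s + x + 20 ≤ p₀) (c3 : x + 10 ≤ k) (c4 : 2 * x + s + 20 ≤ k + l₁)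
    (c5 : l₁ ≤ q) (c6 : q' ≤ q) :
    ∃ z1 : F.Ω → Pln, N2 F i₀ iu iN r₀ r₁ w₀ l₀ p₀ w₁ l₁ p₁ q' k y0 z1 B := by
  obtain ⟨δ, hδ⟩ : ∃ δ : ℝ, δ = 1 / 2 ^ (x + 1) := ⟨_, rfl⟩
  obtain ⟨μ, hμ⟩ : ∃ μ : ℝ, μ = 1 / 2 ^ s := ⟨_, rfl⟩
  obtain ⟨η, hη⟩ : ∃ η : ℝ, η = 1 / 2 ^ (s + x + 20) := ⟨_, rfl⟩
  have hδ0 : 0 < δ := by rw [hδ]; positivity
  have hμ0 : 0 < μ := by rw [hμ]; positivity
  have hη0 : 0 < η := by rw [hη]; positivity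
  have hηe : 2 ^ 19 * η = δ * μ := by
    rw [hη, hδ, hμ, pow_add, pow_add, pow_succ 2 x]
    field_simp
  have frac : ∀ {a b : ℕ}, a + (s + x + 20) ≤ b → (2 : ℝ) ^ a / 2 ^ b ≤ η := by
    intro a b hab
    rw [hη, div_le_div_iff₀ (by positivity) (by positivity), one_mul, ← pow_add]
    exact pow_le_pow_right₀ (by norm_num) hab
  have f0 : (2 : ℝ) ^ w₀ / 2 ^ p₀ ≤ η := frac (by omega)
  have f1 : (2 : ℝ) ^ w₁ / 2 ^ p₁ ≤ η := frac (by omega)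
  have fq : (1 : ℝ) / 2 ^ q ≤ η := by
    rw [hη]
    exact inv_mono c1
  have hρ0 : (0 : ℝ) ≤ 1 / 2 ^ q := by positivity
  rw [← hδ, ← hμ] at hT
  have N0 : NL F i₀ iu iN δ r₀ w₀ l₀ p₀ A B y0 := h0.nl δ hr₀ hB
  obtain ⟨z1, N1⟩ := exists_nl hi hr₀ hw hr₁ le_rfl hw₁ hP' hB h0 h1 hδ0 hμ0 hl hρ0 fq
    f0 f1 hηe.le hT
  have kl : (1 : ℝ) / 2 ^ q ≤ 1 / 2 ^ l₁ := inv_mono c5
  have kl0 : (1 : ℝ) / 2 ^ q ≤ 1 / 2 ^ l₀ := inv_mono (hll.trans c5)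
  have hμ8 : 0 < μ / 8 := by linarith only [hμ0]
  have h8 : 8 * (1 / (2 : ℝ) ^ q) ≤ δ * (μ / 8) := by
    have : δ * (μ / 8) = 2 ^ 19 * η / 8 := by rw [hηe]; ring
    rw [this]
    norm_num
    rw [one_div] at fq
    linarith only [hη0, fq]
  exact by
   have na : 80 / (δ * (μ / 8)) ≤ 2 ^ k * 2 ^ l₁ / 2 := by
     rw [hδ, hμ]
     exact num_a (by omega)
   have nb : 40 / δ + 80 / (δ * (μ / 8)) * (22 / δ * (1 / 2 ^ l₁)) ≤ 2 ^ k / 2 := by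
     rw [hδ, hμ]
     exact num_b c3 c4
   have nc : 22 / δ ≤ 2 ^ k / 4 := by
     rw [hδ]
     exact num_c c3
   have a0 : (0 : ℝ) < 1 / 2 ^ l₀ := by positivity
   have a1 : (0 : ℝ) < 1 / 2 ^ l₁ := by positivity
   have pk : (0 : ℝ) < 2 ^ k := by positivity
   have sl0 : ∀ ω, B ω → |e (Fam.pt F ω) iu - (y0 ω).e| ≤ 2 ^ k / 4 * (1 / 2 ^ l₀) := by
     intro ω hω
     obtain ⟨ω', hω', hs, v, v', hv, hv', hj⟩ := hT ω hω
     exact (nl_slope N0 hδ0 hl kl0 hω hv).trans (mul_le_mul_of_nonneg_right nc a0.le)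
   have sl1 : ∀ ω, B ω → |e (Fam.pt F ω) iu - (z1 ω).e| ≤ 2 ^ k / 4 * (1 / 2 ^ l₁) := by
     intro ω hω
     obtain ⟨ω', hω', hs, v, v', hv, hv', hj⟩ := hT ω hω
     exact (nl_slope N1 hδ0 hl kl hω hv).trans (mul_le_mul_of_nonneg_right nc a1.le)
   have tri : ∀ {a b c u v : ℝ}, |a - b| ≤ u → |a - c| ≤ v → |b - c| ≤ u + v := by
     intro a b c u v hu hv
     have e1 : b - c = (a - c) - (a - b) := by ring
     rw [e1]
     refine (abs_sub _ _).trans ?_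
     linarith only [hu, hv]
   have cmp1 : ∀ ω, B ω → |(y0 ω).s - (z1 ω).s| ≤
         2 ^ k * 2 ^ l₁ / 2 * (2 ^ w₀ / 2 ^ p₀ + 2 ^ w₁ / 2 ^ p₁) ∧
       |((y0 ω).c - (z1 ω).c) + ((y0 ω).s - (z1 ω).s) * (z1 ω).e| ≤
         2 ^ k / 2 * (2 ^ w₀ / 2 ^ p₀ + 2 ^ w₁ / 2 ^ p₁) := by
     intro ω hω
     obtain ⟨ω', hω', hs, v, v', hv, hv', hj⟩ := hT ω hω
     have t := tn_u hi hr₀ hw hw₁ hB h0 hδ0 hμ0 hl hρ0 fq f0 hηe.le hω hω' hs hv hv' hj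
     obtain ⟨k1, k2⟩ := nl_cmp N0 N1 hw le_rfl hw₁ hδ0 hμ8 hl kl h8 hω hω' hs hv hv' t
     exact ⟨k1.trans (mul_le_mul_of_nonneg_right na (by positivity)),
       k2.trans (mul_le_mul_of_nonneg_right nb (by positivity))⟩
   exact by
    obtain ⟨φ0, hφ0⟩ := h0.vis
    obtain ⟨ψ0, hψ0⟩ := h0.con
    refine ⟨z1, ?_⟩
    exact
      { cov := hi
        wP := hP
        rJ := hr₀
        i0 := fun ω hω => h0.inc ω (hB ω hω)
        v0 := ⟨φ0, fun ω hω => hφ0 ω (hB ω hω)⟩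
        c0 := ⟨ψ0, fun ω hω => hψ0 ω (hB ω hω)⟩
        i1 := N1.inc
        v1 := N1.vis
        c1 := N1.con
        n1e := fun ω hω => by
          refine (tri (sl0 ω hω) (sl1 ω hω)).trans ?_
          have : (0 : ℝ) ≤ 2 ^ k * (1 / 2 ^ l₀) := by positivity
          have : (0 : ℝ) ≤ 2 ^ k * (1 / 2 ^ l₁) := by positivity
          linarith
        n1s := fun ω hω => by
          refine (cmp1 ω hω).1.trans ?_
          have : (0 : ℝ) ≤ 2 ^ k * 2 ^ l₁ * (2 ^ w₀ / 2 ^ p₀ + 2 ^ w₁ / 2 ^ p₁) := by positivity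
          linarith only [this]
        n1c := fun ω hω => by
          refine (cmp1 ω hω).2.trans ?_
          have : (0 : ℝ) ≤ 2 ^ k * (2 ^ w₀ / 2 ^ p₀ + 2 ^ w₁ / 2 ^ p₁) := by positivity
          linarith only [this]
        sl := by
          refine ⟨fun u => n u iu, fun u => e u iu, fun ω hω => ⟨?_, hb ω hω iu, ?_⟩⟩
          · have k1 := hl ω (hB ω hω) iu
            have k2 : (1 : ℝ) / 2 ^ q ≤ 1 / 2 ^ q' := inv_mono c6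
            have e1 : F.d ω iu - n (Fam.pt F ω) iu - e (Fam.pt F ω) iu * F.d ω i₀ =
                F.d ω iu - e (Fam.pt F ω) iu * F.d ω i₀ - n (Fam.pt F ω) iu := by ring
            rw [e1]
            exact k1.trans k2
          · refine (sl0 ω hω).trans ?_
            have e1 : (2 : ℝ) ^ k / 2 ^ l₀ = 2 ^ k * (1 / 2 ^ l₀) := by ring
            rw [e1]
            have : (0 : ℝ) ≤ 2 ^ k * (1 / 2 ^ l₀) := by positivity
            linarith only [this] }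

/-- On at least half of the event the fans turn on the windows. -/
theorem turn_event {i₀ : Fin 3} {ρ μ : ℝ} {w : ℕ} {A : F.Ω → Prop}
    {e n : (Fin 3 → ℤ) × (ℕ × F.ζ) → Fin 3 → ℝ} (hl : OnL i₀ ρ (Fam.pt F) F.d A e n)
    (hρ : ρ ≤ μ) (hn : ∀ N : F.Ω → Prop, Sub N A → 1 / 2 * Pe F.p A ≤ Pe F.p N →
      ¬ RotU i₀ μ μ (Fam.pt F) (slam F w) F.d N) :
    ∃ B : F.Ω → Prop, Sub B A ∧ 1 / 2 * Pe F.p A ≤ Pe F.p B ∧ ∀ ω, B ω → ∃ ω', B ω' ∧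
      slam F w ω' = slam F w ω ∧ ∃ j, μ < |e (Fam.pt F ω) j - e (Fam.pt F ω') j| := by
  classical
  obtain ⟨N, hN⟩ : ∃ N : F.Ω → Prop, N = fun ω => ∀ ω', A ω' → slam F w ω' = slam F w ω →
      ∀ j, |e (Fam.pt F ω) j - e (Fam.pt F ω') j| ≤ μ := ⟨_, rfl⟩
  have hrot : RotU i₀ μ μ (Fam.pt F) (slam F w) F.d (fun ω => A ω ∧ N ω) := by
    have hrep : ∃ ζ : ((Fin 3 → ℝ) × (Fin 3 → ℝ)) × F.ζ × ℕ → Fin 3 → ℝ, ∀ ω, A ω ∧ N ω →
        ∃ ω', (A ω' ∧ N ω') ∧ slam F w ω' = slam F w ω ∧ ζ (slam F w ω) = e (Fam.pt F ω') := by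
      refine ⟨fun u => if h : ∃ ω, (A ω ∧ N ω) ∧ slam F w ω = u then e (Fam.pt F h.choose)
        else 0, fun ω hω => ?_⟩
      have h : ∃ ω', (A ω' ∧ N ω') ∧ slam F w ω' = slam F w ω := ⟨ω, hω, rfl⟩
      refine ⟨h.choose, h.choose_spec.1, h.choose_spec.2, ?_⟩
      simp only [dif_pos h]
    obtain ⟨ζ, hζ⟩ := hrep
    refine ⟨e, n, ζ, (hl.sub fun ω hω => hω.1).mono hρ, fun ω hω j => ?_⟩
    obtain ⟨ω', h1, h2, h3⟩ := hζ ω hω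
    rw [h3]
    have h4 := hω.2
    rw [hN] at h4
    exact h4 ω' h1.1 h2 j
  have hthin : Pe F.p (fun ω => A ω ∧ N ω) ≤ Pe F.p A / 2 := by
    by_contra hcon
    push Not at hcon
    exact hn _ (fun ω hω => hω.1) (by linarith only [hcon]) hrot
  have hd := Pe_diff hthin
  rw [Real.exp_neg, Real.exp_log (by norm_num)] at hd
  refine ⟨fun ω => A ω ∧ ¬ N ω, fun ω hω => hω.1, ?_, fun ω hω => ?_⟩
  · rw [one_div]
    exact hd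
  · have h1 := hω.2
    rw [hN] at h1
    push Not at h1
    obtain ⟨ω', h2, h3, j, h4⟩ := h1
    refine ⟨ω', ⟨h2, ?_⟩, h3, j, h4⟩
    rw [hN]
    intro h5
    have := h5 ω hω.1 h3.symm j
    rw [abs_sub_comm] at this
    linarith only [h4, this]

end one

/-! ### The class -/

/-- **(PZN)** Labels in one normal form exist. -/
theorem pzn_thm : PZNStmt := by
  intro S a R h₁ i₀ c s₂ r D σ hC P₀ P₁ w₀ w₁ l₀ l₁ p₀ p₁ h hP0 hP01 hP1 hD0 hD1 hw0 hw01 hw1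
    hpi hh hl01 a1 a3 a4 b1 b3 d3 d4
  classical
  obtain ⟨m₁, hm₁⟩ : ∃ m₁, m₁ = max l₁ 0 := ⟨_, rfl⟩
  rw [← hm₁] at d4
  have m0 : 0 ≤ m₁ := by rw [hm₁]; exact le_max_right _ _
  have ml : l₁ ≤ m₁ := by rw [hm₁]; exact le_max_left _ _
  have R1 := hC.row 1 one_pos le_rfl hC.D1
  have hP01' : P₀ ≤ 1 := hP01.trans hP1
  have hP1' : 0 < P₁ := hP0.trans_le hP01
  have RP0 := hC.row P₀ hP0 hP01' hD0
  have RP1 := hC.row P₁ hP1' hP1 hD1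
  have w1n : 0 ≤ w₁ := hw0.le.trans hw01
  have w0l : w₀ ≤ 1 := hw01.trans hw1.le
  have w0r : (0 : ℝ) < w₀ := by exact_mod_cast hw0
  have w01r : (w₀ : ℝ) ≤ w₁ := by exact_mod_cast hw01
  have w1r : (w₁ : ℝ) < 1 := by exact_mod_cast hw1
  have t0 : (σ P₀).th w₀ ≤ P₀ := num_le_cap hC.ne hP0.le (RP0.th w₀ hw0.le w0l)
  have t1 : (σ P₁).th w₁ ≤ P₁ := num_le_cap hC.ne hP1'.le (RP1.th w₁ w1n hw1.le)
  have p0 : 0 < p₀ := by linarith only [hh, d4, m0, w0r, w01r]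
  have G0 := glu hC hP01' RP0 w₀ hw0.le w0l a1 b1 (by linarith only [hh, hl01, d4, ml, w01r]) p0 (by linarith only [b1, t0])
  have G1 := glu hC hP1 RP1 w₁ w1n hw1.le a3 b3 (by linarith only [hh, d3, d4, ml]) (by linarith only [hh, d3, d4, m0, w0r, w01r]) (by linarith only [b3, t1])
  have pi1 : (σ 1).pi ≤ 1 := num_le_cap hC.ne zero_le_one R1.pi
  have rot0 : 0 ≤ (σ 1).rot w₁ := num_nonneg hC.ne (R1.rot w₁ w1n hw1.le)
  have rotl : l₁ < (σ 1).rot w₁ :=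
    a3.trans_le ((rw_row hC.ne hP1 RP1 R1).2 w₁ w1n hw1.le).1
  have rotm : m₁ ≤ (σ 1).rot w₁ := by rw [hm₁]; exact max_le rotl.le rot0
  -- the margin
  obtain ⟨g, hg⟩ : ∃ g, g = min (h / 8) (min (((σ 1).pi - (σ 1).rot w₁) / 8)
      (min h₁ 1 / 8)) := ⟨_, rfl⟩
  exact by
   have hg0 : 0 < g := by
     rw [hg]
     refine lt_min (by linarith only [a4, rotl]) (lt_min (by linarith only [hpi]) ?_)
     have := lt_min hC.h₁0 one_pos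
     linarith only [this]
   have g1 : g ≤ h / 8 := by rw [hg]; exact min_le_left _ _
   have g2 : g ≤ ((σ 1).pi - (σ 1).rot w₁) / 8 := by
     rw [hg]
     exact (min_le_right _ _).trans (min_le_left _ _)
   have g3 : g ≤ min h₁ 1 / 8 := by
     rw [hg]
     exact (min_le_right _ _).trans (min_le_right _ _)
   have g4 : g ≤ h₁ / 8 := g3.trans (by have := min_le_left h₁ 1; linarith only [this])
   have g5 : g ≤ 1 / 8 := g3.trans (by have := min_le_right h₁ 1; linarith only [this])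
   -- the claims
   have c1 := R1.pi.1 g hg0
   obtain ⟨cc, hcc, J₄, hneg⟩ := Clp.neg_base
     (fun J F => capS_hered (fun s J F => qRot_hered i₀ 1 w₁ s J F) ((σ 1).rot w₁ + g) J F)
     ((R1.rot w₁ w1n hw1.le).2 g hg0)
   have c2 : Clp S (fun J F A => ∀ B : F.Ω → Prop, Sub B A →
       Real.exp (-(cc / 2 * J)) * Pe F.p A ≤ Pe F.p B →
       ¬ capS 1 (qRot i₀ 1 w₁) ((σ 1).rot w₁ + g) J F B) :=
     Clp.base (cc / 2) (by linarith only [hcc]) J₄ fun J hJ F A hA B hB hP =>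
       hneg J hJ F B (S.mono (by linarith only) (S.res (by linarith only [hcc]) hA hB hP))
   obtain ⟨τ, hτ, J₁, hsp⟩ := spread_part hC.a1 hC.R0 hC.ub hC.st hC.lb hg0
   have c3 : Clp S (fun J F A => (0 < Pe F.p A ∧ Lb F i₀ ⌊h₁ * J⌋₊ A) ∧
       ∀ q : ℕ, q ≤ J → g * J ≤ q → q + 2 ≤ ⌊h₁ * J⌋₊ →
         ∃ B : F.Ω → Prop, Sub B A ∧ Real.exp (-Real.log 2) * Pe F.p A ≤ Pe F.p B ∧
         ∀ ω, B ω → ∃ ω' ω'', B ω' ∧ B ω'' ∧ Fam.pt F ω' = Fam.pt F ω ∧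
           Fam.pt F ω'' = Fam.pt F ω ∧ 1 / 2 ^ (q + 1) ≤ |F.d ω' i₀ - F.d ω'' i₀|) :=
     Clp.base τ hτ J₁ fun J hJ F A hS =>
       ⟨⟨lt_of_lt_of_le (Real.exp_pos _) (hC.st _ _ _ _ hS).2.2.2, hC.lb _ _ _ _ hS⟩,
         hsp J hJ F A hS⟩
   exact by
    refine Clp.step ⟨1, fun J F _ => qN2 i₀ P₀ P₁ w₀ l₀ p₀ w₁ l₁ p₁ ((σ 1).pi - h) h J F,
      fun J F _ => qN2_hered _ _ _ _ _ _ _ _ _ _ _ _ _⟩ fun κ hκ => ?_
    obtain ⟨J₂, hJ₂⟩ := Pool.S6K.exp_small (κ := κ) (C := 4) hκ (by norm_num)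
    obtain ⟨J₃, hJ₃⟩ := exists_nat_gt (200 / g)
    obtain ⟨J₅, hJ₅⟩ := Pool.S6K.exp_small (κ := cc / 2) (C := 4) (by linarith only [hcc]) (by norm_num)
    refine Clp.mono (J₂ := max J₂ (max J₃ J₅)) (((G0.and G1).and (c1.and c2)).and c3) ?_
    rintro J hJ F A ⟨⟨⟨e0, e1⟩, ⟨e3, e4⟩⟩, ⟨dA, eb, nb, hfr⟩, e5⟩ hSb
    have hJ0 : (0 : ℝ) ≤ J := Nat.cast_nonneg J
    have hJ2 := hJ₂ J ((le_max_left _ _).trans hJ)
    have hJ5 := hJ₅ J (((le_max_right _ _).trans (le_max_right _ _)).trans hJ)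
    have hJg : 200 < J * g := by
      have : 200 / g < J :=
        hJ₃.trans_le (by exact_mod_cast ((le_max_left _ _).trans (le_max_right _ _)).trans hJ)
      rwa [div_lt_iff₀ hg0] at this
    -- the integers
    obtain ⟨x, hx⟩ : ∃ x, x = ⌈g * J⌉₊ := ⟨_, rfl⟩
    have hx1 : g * J ≤ x := by rw [hx]; exact Nat.le_ceil _
    have hx2 : (x : ℝ) < g * J + 1 := by rw [hx]; exact Nat.ceil_lt_add_one (by positivity)
    have hg5 : g * J ≤ 1 / 8 * J := mul_le_mul_of_nonneg_right g5 hJ0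
    have hxJ : x ≤ J := by
      have : (x : ℝ) ≤ J := by linarith only [hP01, hP1, a4, b1, d4, m0, w0r, w01r, t0, rotl, hJg, hx2, hg5]
      exact_mod_cast this
    have hxh : x + 4 ≤ ⌊h₁ * J⌋₊ := by
      refine Nat.le_floor ?_
      push_cast
      have e1 : g * J ≤ h₁ / 8 * J := mul_le_mul_of_nonneg_right g4 hJ0
      linarith only [hP01, hP1, a4, b1, d4, m0, w0r, w01r, t0, rotl, hJg, hx2, e1]
    have g1J : g * J ≤ h / 8 * J := mul_le_mul_of_nonneg_right g1 hJ0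
    have g2J : g * J ≤ ((σ 1).pi - (σ 1).rot w₁) / 8 * J := mul_le_mul_of_nonneg_right g2 hJ0
    obtain ⟨q, hq⟩ : ∃ q, q = ⌊((σ 1).pi - g) * J⌋₊ := ⟨_, rfl⟩
    exact by
     obtain ⟨s, hs⟩ : ∃ s, s = ⌊((σ 1).rot w₁ + g) * J⌋₊ := ⟨_, rfl⟩
     have q1 : ((σ 1).pi - g) * J < q + 1 := by rw [hq]; exact Nat.lt_floor_add_one _
     have s1 : (s : ℝ) ≤ ((σ 1).rot w₁ + g) * J := by
       rw [hs]
       exact Nat.floor_le (by positivity)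
     have k1 : h * J < ⌊h * J⌋₊ + 1 := Nat.lt_floor_add_one _
     have m1 : m₁ * J < ⌊l₁ * J⌋₊ + 1 := by
       rcases le_total 0 l₁ with hl | hl
       · rw [hm₁, max_eq_left hl]
         exact Nat.lt_floor_add_one _
       · rw [hm₁, max_eq_right hl, zero_mul]
         positivity
     have m2 : (⌊l₁ * J⌋₊ : ℝ) ≤ m₁ * J := by
       refine le_trans ?_ (Nat.floor_le (mul_nonneg m0 hJ0))
       exact_mod_cast floor_row ml J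
     have n1 : p₀ * J < ⌊p₀ * J⌋₊ + 1 := Nat.lt_floor_add_one _
     have o1 : (⌊(w₁ : ℝ) * J⌋₊ : ℝ) ≤ w₁ * J := Nat.floor_le (by positivity)
     have a4J : (σ 1).rot w₁ * J ≤ (m₁ + h / 8) * J :=
       mul_le_mul_of_nonneg_right (by linarith only [a4, ml]) hJ0
     have d4J : (w₁ + m₁ + h) * J ≤ p₀ * J := mul_le_mul_of_nonneg_right d4.le hJ0
     have rlJ : m₁ * J ≤ (σ 1).rot w₁ * J := mul_le_mul_of_nonneg_right rotm hJ0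
     have i1 : s + x + 20 ≤ q := by
       have : ((s + x + 20 : ℕ) : ℝ) < ((q + 1 : ℕ) : ℝ) := by
         push_cast
         linarith only [hP01, hP1, a4, b1, d4, m0, w0r, w01r, t0, rotl, hJg, hx2, g2J, q1, s1]
       have : s + x + 20 < q + 1 := by exact_mod_cast this
       omega
     have i2 : ⌊(w₁ : ℝ) * J⌋₊ + s + x + 20 ≤ ⌊p₀ * J⌋₊ := by
       have : ((⌊(w₁ : ℝ) * J⌋₊ + s + x + 20 : ℕ) : ℝ) < ((⌊p₀ * J⌋₊ + 1 : ℕ) : ℝ) := by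
         push_cast
         linarith only [hP01, hP1, a4, b1, d4, m0, w0r, w01r, t0, rotl, hJg, hx2, g1J, s1, n1, o1, a4J, d4J]
       have : ⌊(w₁ : ℝ) * J⌋₊ + s + x + 20 < ⌊p₀ * J⌋₊ + 1 := by exact_mod_cast this
       omega
     exact by
      have i3 : x + 10 ≤ ⌊h * J⌋₊ := by
        have : ((x + 10 : ℕ) : ℝ) < ((⌊h * J⌋₊ + 1 : ℕ) : ℝ) := by
          push_cast
          linarith only [hP01, hP1, a4, b1, d4, m0, w0r, w01r, t0, rotl, hJg, hx2, g1J, k1]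
        have : x + 10 < ⌊h * J⌋₊ + 1 := by exact_mod_cast this
        omega
      have i4 : 2 * x + s + 20 ≤ ⌊h * J⌋₊ + ⌊l₁ * J⌋₊ := by
        have : ((2 * x + s + 20 : ℕ) : ℝ) < ((⌊h * J⌋₊ + ⌊l₁ * J⌋₊ + 1 : ℕ) : ℝ) := by
          push_cast
          linarith only [hP01, hP1, a4, b1, d4, m0, w0r, w01r, t0, rotl, hJg, hx2, g1J, s1, k1, m1, a4J]
        have : 2 * x + s + 20 < ⌊h * J⌋₊ + ⌊l₁ * J⌋₊ + 1 := by exact_mod_cast this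
        omega
      have i5 : ⌊l₁ * J⌋₊ ≤ q := by
        have : ((⌊l₁ * J⌋₊ : ℕ) : ℝ) < ((q + 1 : ℕ) : ℝ) := by
          push_cast
          linarith only [hP01, hP1, a4, b1, d4, m0, w0r, w01r, t0, rotl, hJg, g2J, q1, m2, rlJ]
        have : ⌊l₁ * J⌋₊ < q + 1 := by exact_mod_cast this
        omega
      have i6 : ⌊((σ 1).pi - h) * J⌋₊ ≤ q := by
        rw [hq]
        exact floor_row (by linarith only [a4, rotl, g1]) J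
      have i7 : ⌊(w₀ : ℝ) * J⌋₊ ≤ ⌊(w₁ : ℝ) * J⌋₊ := floor_row w01r J
      have i8 : ⌊(w₁ : ℝ) * J⌋₊ ≤ J := floor_row_one w1r.le J
      have i9 : ∀ {w p : ℝ}, 0 ≤ w → w + m₁ ≤ p → ⌊w * J⌋₊ + ⌊l₁ * J⌋₊ ≤ ⌊p * J⌋₊ := by
        intro w p hw hwl
        refine Nat.le_floor ?_
        push_cast
        have f1 : (⌊w * J⌋₊ : ℝ) ≤ w * J := Nat.floor_le (by positivity)
        have f3 : w * J + m₁ * J ≤ p * J := by
          rw [← add_mul]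
          exact mul_le_mul_of_nonneg_right hwl hJ0
        linarith only [m2, f1, f3]
      -- the events
      exact by
       obtain ⟨A', hA', hPA', hmt⟩ := e5 x hxJ hx1 (by omega)
       rw [Real.exp_neg, Real.exp_log (by norm_num)] at hPA'
       rcases e3 with e3 | ⟨-, e, n, hl⟩
       · linarith only [rot0, hg0, g2, e3]
       have hl' : OnL i₀ (1 / 2 ^ q) (Fam.pt F) F.d A e n := by
         rw [hq, ← ptq_one F]
         exact hl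
       have hPe := Pe_nonneg F.isLaw A
       obtain ⟨B, hB, hPB, hturn⟩ := turn_event (w := ⌊(w₁ : ℝ) * J⌋₊) (μ := 1 / 2 ^ s)
         (hl'.sub hA') (inv_mono (by omega)) (by
           intro N hN hPN hrot
           refine e4 N (hN.trans hA') ?_ (Or.inr ⟨by linarith only [hP01, hP1, a4, b1, d4, ml, w0r, w01r, t0, pi1, rotl, g2], ?_⟩)
           · refine le_trans ?_ hPN
             calc Real.exp (-(cc / 2 * J)) * Pe F.p A ≤ 1 / 4 * Pe F.p A :=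
                   mul_le_mul_of_nonneg_right hJ5 hPe
               _ ≤ 1 / 2 * Pe F.p A' := by linarith only [hPA']
           · rw [hs, ← ptq_one F] at hrot
             exact hrot)
       have hmt' : ∀ ω, A' ω → ∃ v, Mt F i₀ (1 / 2 ^ (x + 1)) A' ω v := by
         intro ω hω
         obtain ⟨ω', ω'', b1, b2, b3, b4, b5⟩ := hmt ω hω
         exact ⟨fun j => F.d ω' j - F.d ω'' j, ω', ω'', b1, b2, b3, b4, b5, fun j => rfl⟩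
       have hT : Tn F i₀ (1 / 2 ^ (x + 1)) (1 / 2 ^ s) ⌊(w₁ : ℝ) * J⌋₊ A' B e := by
         intro ω hω
         obtain ⟨ω', h1, h2, h3⟩ := hturn ω hω
         obtain ⟨v, hv⟩ := hmt' ω (hB ω hω)
         obtain ⟨v', hv'⟩ := hmt' ω' (hB ω' h1)
         exact ⟨ω', h1, h2, v, v', hv, hv', h3⟩
       have hb : ∀ ω, B ω → ∀ j, |e (Fam.pt F ω) j| ≤ 2 := fun ω hω j =>
         slope_le (Qt := J) le_rfl hA' hmt hfr (l := q) (e := e) (n := n) hl' (by omega) hxh ω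
           (hB ω hω) j
       -- the labels
       exact by
        obtain ⟨iu, iN, hi, y0, hy0, hv0, hc0⟩ := e0
        obtain ⟨iu', iN', hi', y1, hy1, hv1, hc1⟩ := e1
        have rl : ∀ {a b : Fin 3} {r w lam P : ℕ} {y : F.Ω → Pln},
            (∀ ω, A ω → Inc i₀ a b w lam P 2 (y ω) (F.t ω) (F.x ω) (F.d ω)) →
            (∃ φ : (Fin 3 → ℤ) × (ℕ × F.ζ) → Pln, ∀ ω, A ω → y ω = φ (Pool.KS6.ptq F r ω)) →
            (∃ ψ : ((Fin 3 → ℝ) × (Fin 3 → ℝ)) × F.ζ × ℕ → Pln, ∀ ω, A ω → y ω = ψ (slam F w ω)) →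
            RL F i₀ a b r w lam P A' y := by
          rintro a b r w lam P y h1 ⟨φ, h2⟩ ⟨ψ, h3⟩
          exact ⟨fun ω hω => h1 ω (hA' ω hω), ⟨φ, fun ω hω => h2 ω (hA' ω hω)⟩,
            ⟨ψ, fun ω hω => h3 ω (hA' ω hω)⟩⟩
        have L0 := rl hy0 hv0 hc0
        have L1 := rl hy1 hv1 hc1
        have L1' : RL F i₀ iu iN ⌊P₁ * J⌋₊ ⌊(w₁ : ℝ) * J⌋₊ ⌊l₁ * J⌋₊ ⌊p₁ * J⌋₊ A' y1 ∨
            RL F i₀ iN iu ⌊P₁ * J⌋₊ ⌊(w₁ : ℝ) * J⌋₊ ⌊l₁ * J⌋₊ ⌊p₁ * J⌋₊ A' y1 := by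
          rcases two_orders i₀ iu iN iu' iN' hi hi' with ⟨h1, h2⟩ | ⟨h1, h2⟩
          · subst h1 h2
            exact Or.inl L1
          · subst h1 h2
            exact Or.inr L1
        have hll : ⌊l₀ * J⌋₊ ≤ ⌊l₁ * J⌋₊ := floor_row hl01 J
        obtain ⟨z1, hN2⟩ := n2_one hi hB (floor_row_one hP01' J) (floor_row_one hP1 J) i7 i8
          ((Nat.add_le_add_left hll _).trans (i9 w0r.le (by linarith only [a4, d4, w01r, rotl])))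
          (i9 (w0r.le.trans w01r) (by linarith only [a4, d3, d4, rotl])) (floor_row d3 J)
          hll L0 L1' (hl'.sub hA') hT hb i1 i2 i3 i4 i5 i6
        have hPB4 : Pe F.p A ≤ 4 * Pe F.p B := by linarith only [hPA', hPB]
        exact Pool.S6K.stb_part (hSb 0) (hB.trans hA') (by norm_num) hPB4 hJ2 hPe
          ⟨iu, iN, y0, z1, hN2⟩

end Pool.PZ
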