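import Pool.Agent.H86.PZ.Swap
import Pool.Agent.H86.S6C.Trv

/-!
# Labels in one normal form: comparison of the frames

Two planks which contain the fans at exact points have the same normal along the fans; if the fans
turn on the windows, the normals agree.
-/

set_option autoImplicit false

namespace Pool.PZ

open Finset Real
open Pool.Agent.H49.Ent Pool.Agent.H32.Dense Pool.STK Pool.KA Pool.KSAT Pool.K2S Pool.PB Pool.KS6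
open Pool.ZCL Pool.S6C

/-! ### Numbers -/

/-- Two directions, and their turning. -/
theorem core_fr {A B E δ ρ μ ν ν' v₀ v v₀' v' : ℝ} (hδ : 0 < δ) (hμ : 0 < μ)
    (h0 : δ ≤ |v₀|) (h0' : δ ≤ |v₀'|)
    (h1 : |v - ν * v₀| ≤ 2 * ρ) (h1' : |v' - ν' * v₀'| ≤ 2 * ρ)
    (h2 : |A * v₀ + B * v| ≤ E) (h2' : |A * v₀' + B * v'| ≤ E)
    (h3 : μ ≤ |ν - ν'|) (h4 : 8 * ρ ≤ δ * μ) :
    |B| ≤ 4 * E / (δ * μ) ∧ |A + B * ν| ≤ 2 * E / δ := by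
  have key : ∀ {ν v₀ v : ℝ}, δ ≤ |v₀| → |v - ν * v₀| ≤ 2 * ρ → |A * v₀ + B * v| ≤ E →
      |A + B * ν| * δ ≤ E + |B| * (2 * ρ) := by
    intro ν v₀ v a b c
    have e : (A + B * ν) * v₀ = (A * v₀ + B * v) - B * (v - ν * v₀) := by ring
    calc |A + B * ν| * δ ≤ |A + B * ν| * |v₀| := mul_le_mul_of_nonneg_left a (abs_nonneg _)
      _ = |(A * v₀ + B * v) - B * (v - ν * v₀)| := by rw [← abs_mul, e]
      _ ≤ |A * v₀ + B * v| + |B * (v - ν * v₀)| := abs_sub _ _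
      _ ≤ E + |B| * (2 * ρ) := by
          rw [abs_mul]
          exact add_le_add c (mul_le_mul_of_nonneg_left b (abs_nonneg _))
  have k1 := key h0 h1 h2
  have k2 := key h0' h1' h2'
  have k3 : |B| * |ν - ν'| ≤ |A + B * ν| + |A + B * ν'| := by
    rw [← abs_mul]
    have e : B * (ν - ν') = (A + B * ν) - (A + B * ν') := by ring
    rw [e]
    exact abs_sub _ _
  have k4 : |B| * μ ≤ |B| * |ν - ν'| := mul_le_mul_of_nonneg_left h3 (abs_nonneg _)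
  have k6 : |B| * (8 * ρ) ≤ |B| * (δ * μ) := mul_le_mul_of_nonneg_left h4 (abs_nonneg _)
  have k5 : |B| * (δ * μ) ≤ 4 * E := by
    have : |B| * μ * δ ≤ (|A + B * ν| + |A + B * ν'|) * δ :=
      mul_le_mul_of_nonneg_right (k4.trans k3) hδ.le
    linarith
  refine ⟨?_, ?_⟩
  · rw [le_div_iff₀ (by positivity)]
    exact k5
  · rw [le_div_iff₀ hδ]
    linarith

/-- The two directions of a plank turn together. -/
theorem turn_two {c s E δ ρ νa νb νa' νb' v₀ va vb v₀' va' vb' : ℝ} (hs : |s| ≤ 4)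
    (h0 : δ ≤ |v₀|) (h0' : δ ≤ |v₀'|) (ha : |va - νa * v₀| ≤ 2 * ρ)
    (hb : |vb - νb * v₀| ≤ 2 * ρ) (ha' : |va' - νa' * v₀'| ≤ 2 * ρ)
    (hb' : |vb' - νb' * v₀'| ≤ 2 * ρ) (h : |c * v₀ + s * va + vb| ≤ E)
    (h' : |c * v₀' + s * va' + vb'| ≤ E) (hδ : 0 < δ) :
    |νb - νb'| * δ ≤ 4 * |νa - νa'| * δ + 2 * (E + 10 * ρ) := by
  have key : ∀ {νa νb v₀ va vb : ℝ}, δ ≤ |v₀| → |va - νa * v₀| ≤ 2 * ρ →
      |vb - νb * v₀| ≤ 2 * ρ → |c * v₀ + s * va + vb| ≤ E →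
      |c + s * νa + νb| * δ ≤ E + 10 * ρ := by
    intro νa νb v₀ va vb a b b' d
    have e : (c + s * νa + νb) * v₀ = (c * v₀ + s * va + vb) - s * (va - νa * v₀) -
        (vb - νb * v₀) := by ring
    have k : |s * (va - νa * v₀)| ≤ 4 * (2 * ρ) := by
      rw [abs_mul]
      exact mul_le_mul hs b (abs_nonneg _) (by norm_num)
    calc |c + s * νa + νb| * δ ≤ |c + s * νa + νb| * |v₀| :=
          mul_le_mul_of_nonneg_left a (abs_nonneg _)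
      _ = |(c * v₀ + s * va + vb) - s * (va - νa * v₀) - (vb - νb * v₀)| := by
          rw [← abs_mul, e]
      _ ≤ |c * v₀ + s * va + vb| + |s * (va - νa * v₀)| + |vb - νb * v₀| :=
          (abs_sub _ _).trans (add_le_add (abs_sub _ _) le_rfl)
      _ ≤ E + 10 * ρ := by linarith
  have k1 := key h0 ha hb h
  have k2 := key h0' ha' hb' h'
  have e : νb - νb' = ((c + s * νa + νb) - (c + s * νa' + νb')) - s * (νa - νa') := by ring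
  have k3 : |νb - νb'| ≤ |c + s * νa + νb| + |c + s * νa' + νb'| + 4 * |νa - νa'| := by
    rw [e]
    refine (abs_sub _ _).trans (add_le_add (abs_sub _ _) ?_)
    rw [abs_mul]
    exact mul_le_mul_of_nonneg_right hs (abs_nonneg _)
  have k4 := mul_le_mul_of_nonneg_right k3 hδ.le
  linarith

/-! ### Pairs of velocities at exact points -/

section one

variable {J : ℕ} {F : Fam 3 J}

/-- `v` is a difference of two velocities at the exact point of `ω`, of size at least `δ`. -/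
def Mt (F : Fam 3 J) (i₀ : Fin 3) (δ : ℝ) (A : F.Ω → Prop) (ω : F.Ω) (v : Fin 3 → ℝ) : Prop :=
  ∃ ω' ω'', A ω' ∧ A ω'' ∧ Fam.pt F ω' = Fam.pt F ω ∧ Fam.pt F ω'' = Fam.pt F ω ∧
    δ ≤ |v i₀| ∧ ∀ j, v j = F.d ω' j - F.d ω'' j

theorem Mt.inc {i₀ a b : Fin 3} {δ : ℝ} {A : F.Ω → Prop} {ω : F.Ω} {v : Fin 3 → ℝ}
    (h : Mt F i₀ δ A ω v) (hA : A ω) {r w lam P : ℕ} (hr : r ≤ J) {y : F.Ω → Pln}
    (hI : ∀ ω, A ω → Inc i₀ a b w lam P 2 (y ω) (F.t ω) (F.x ω) (F.d ω))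
    (hv : ∃ φ : (Fin 3 → ℤ) × (ℕ × F.ζ) → Pln, ∀ ω, A ω → y ω = φ (Pool.KS6.ptq F r ω)) :
    |fu i₀ a (y ω).e v| ≤ 4 / 2 ^ lam ∧
      |fn i₀ a b (y ω).c (y ω).s v| ≤ 4 * (2 ^ w / 2 ^ P) := by
  obtain ⟨φ, hφ⟩ := hv
  obtain ⟨ω', ω'', h1, h2, h3, h4, -, h5⟩ := h
  have y1 : y ω' = y ω := by rw [hφ ω' h1, hφ ω hA, ptq_of_pt F hr h3]
  have y2 : y ω'' = y ω := by rw [hφ ω'' h2, hφ ω hA, ptq_of_pt F hr h4]
  have a1 := hI ω' h1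
  have a2 := hI ω'' h2
  rw [y1] at a1
  rw [y2] at a2
  constructor
  · have e1 : fu i₀ a (y ω).e v = (fu i₀ a (y ω).e (F.d ω') - fu i₀ a (y ω).e (y ω).db) -
        (fu i₀ a (y ω).e (F.d ω'') - fu i₀ a (y ω).e (y ω).db) := by
      unfold fu
      rw [h5, h5]
      ring
    rw [e1]
    refine (abs_sub _ _).trans ((add_le_add a1.vu a2.vu).trans (le_of_eq ?_))
    ring
  · have e1 : fn i₀ a b (y ω).c (y ω).s v =
        (fn i₀ a b (y ω).c (y ω).s (F.d ω') - fn i₀ a b (y ω).c (y ω).s (y ω).db) -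
        (fn i₀ a b (y ω).c (y ω).s (F.d ω'') - fn i₀ a b (y ω).c (y ω).s (y ω).db) := by
      unfold fn
      rw [h5, h5, h5]
      ring
    rw [e1]
    refine (abs_sub _ _).trans ((add_le_add a1.vn a2.vn).trans (le_of_eq ?_))
    ring

theorem Mt.line {i₀ : Fin 3} {δ ρ : ℝ} {A : F.Ω → Prop} {ω : F.Ω} {v : Fin 3 → ℝ}
    (h : Mt F i₀ δ A ω v) {e n : (Fin 3 → ℤ) × (ℕ × F.ζ) → Fin 3 → ℝ}
    (hl : OnL i₀ ρ (Fam.pt F) F.d A e n) (j : Fin 3) :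
    |v j - e (Fam.pt F ω) j * v i₀| ≤ 2 * ρ := by
  obtain ⟨ω', ω'', h1, h2, h3, h4, -, h5⟩ := h
  have a1 := hl ω' h1 j
  have a2 := hl ω'' h2 j
  rw [h3] at a1
  rw [h4] at a2
  have e1 : v j - e (Fam.pt F ω) j * v i₀ =
      (F.d ω' j - e (Fam.pt F ω) j * F.d ω' i₀ - n (Fam.pt F ω) j) -
      (F.d ω'' j - e (Fam.pt F ω) j * F.d ω'' i₀ - n (Fam.pt F ω) j) := by
    rw [h5, h5]
    ring
  rw [e1]
  refine (abs_sub _ _).trans ((add_le_add a1 a2).trans (le_of_eq ?_))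
  ring

theorem Mt.big {i₀ : Fin 3} {δ : ℝ} {A : F.Ω → Prop} {ω : F.Ω} {v : Fin 3 → ℝ}
    (h : Mt F i₀ δ A ω v) : δ ≤ |v i₀| := by
  obtain ⟨-, -, -, -, -, -, h0, -⟩ := h
  exact h0

/-- The event `B`, on which the fans turn on the windows `w`. -/
def Tn (F : Fam 3 J) (i₀ : Fin 3) (δ μ : ℝ) (w : ℕ) (A B : F.Ω → Prop)
    (e : (Fin 3 → ℤ) × (ℕ × F.ζ) → Fin 3 → ℝ) : Prop :=
  ∀ ω, B ω → ∃ ω', B ω' ∧ slam F w ω' = slam F w ω ∧ ∃ v v', Mt F i₀ δ A ω v ∧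
    Mt F i₀ δ A ω' v' ∧ ∃ j, μ < |e (Fam.pt F ω) j - e (Fam.pt F ω') j|

/-- A raw label. -/
structure RL (F : Fam 3 J) (i₀ iu iN : Fin 3) (r w lam P : ℕ) (A : F.Ω → Prop)
    (y : F.Ω → Pln) : Prop where
  inc : ∀ ω, A ω → Inc i₀ iu iN w lam P 2 (y ω) (F.t ω) (F.x ω) (F.d ω)
  vis : ∃ φ : (Fin 3 → ℤ) × (ℕ × F.ζ) → Pln, ∀ ω, A ω → y ω = φ (Pool.KS6.ptq F r ω)
  con : ∃ ψ : ((Fin 3 → ℝ) × (Fin 3 → ℝ)) × F.ζ × ℕ → Pln, ∀ ω, A ω → y ω = ψ (slam F w ω)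

/-- A label in the normal form `(iu, iN)`. -/
structure NL (F : Fam 3 J) (i₀ iu iN : Fin 3) (δ : ℝ) (r w lam P : ℕ) (A B : F.Ω → Prop)
    (y : F.Ω → Pln) : Prop where
  inc : ∀ ω, B ω → IncP i₀ iu iN w (w + lam) P 20 20 (y ω) (F.t ω) (F.x ω)
  vis : ∃ φ : (Fin 3 → ℤ) × (ℕ × F.ζ) → Pln, ∀ ω, B ω → y ω = φ (Pool.KS6.ptq F r ω)
  con : ∃ ψ : ((Fin 3 → ℝ) × (Fin 3 → ℝ)) × F.ζ × ℕ → Pln, ∀ ω, B ω → y ω = ψ (slam F w ω)
  vel : ∀ ω v, B ω → Mt F i₀ δ A ω v → |fu i₀ iu (y ω).e v| ≤ 20 / 2 ^ lam ∧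
    |fn i₀ iu iN (y ω).c (y ω).s v| ≤ 20 * (2 ^ w / 2 ^ P)

theorem RL.eq {i₀ iu iN : Fin 3} {r w lam P w' : ℕ} {A : F.Ω → Prop}
    {y : F.Ω → Pln} (h : RL F i₀ iu iN r w lam P A y) (hw : w ≤ w') (hw' : w' ≤ J)
    {ω ω' : F.Ω} (h1 : A ω) (h2 : A ω') (hs : slam F w' ω' = slam F w' ω) : y ω' = y ω := by
  obtain ⟨ψ, hψ⟩ := h.con
  rw [hψ ω h1, hψ ω' h2, slam_coarse F hw hw' ω, slam_coarse F hw hw' ω', hs]

theorem NL.eq {i₀ iu iN : Fin 3} {δ : ℝ} {r w lam P w' : ℕ} {A B : F.Ω → Prop}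
    {y : F.Ω → Pln} (h : NL F i₀ iu iN δ r w lam P A B y) (hw : w ≤ w') (hw' : w' ≤ J)
    {ω ω' : F.Ω} (h1 : B ω) (h2 : B ω') (hs : slam F w' ω' = slam F w' ω) : y ω' = y ω := by
  obtain ⟨ψ, hψ⟩ := h.con
  rw [hψ ω h1, hψ ω' h2, slam_coarse F hw hw' ω, slam_coarse F hw hw' ω', hs]

/-- A label in its own normal form. -/
theorem RL.nl {i₀ iu iN : Fin 3} (δ : ℝ) {r w lam P : ℕ} (hr : r ≤ J) {A B : F.Ω → Prop}
    (hB : Sub B A) {y : F.Ω → Pln} (h : RL F i₀ iu iN r w lam P A y) :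
    NL F i₀ iu iN δ r w lam P A B y := by
  have p : ∀ {C : ℝ} {k : ℕ}, C ≤ 20 → C / (2 : ℝ) ^ k ≤ 20 / 2 ^ k := fun hC =>
    div_le_div_of_nonneg_right hC (by positivity)
  obtain ⟨φ, hφ⟩ := h.vis
  obtain ⟨ψ, hψ⟩ := h.con
  refine ⟨fun ω hω => ?_, ⟨φ, fun ω hω => hφ ω (hB ω hω)⟩, ⟨ψ, fun ω hω => hψ ω (hB ω hω)⟩,
    fun ω v hω hv => ?_⟩
  · have hI := h.inc ω (hB ω hω)
    exact ⟨hI.e_le.trans (by norm_num), hI.c_le.trans (by norm_num),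
      hI.s_le.trans (by norm_num), hI.pe.trans (p (by norm_num)), hI.pu.trans (p (by norm_num)),
      hI.pn.trans (p (by norm_num))⟩
  · obtain ⟨a1, a2⟩ := hv.inc (hB ω hω) hr h.inc h.vis
    refine ⟨a1.trans (p (by norm_num)), a2.trans ?_⟩
    exact mul_le_mul_of_nonneg_right (by norm_num) (by positivity)

/-- A label in the opposite normal form. -/
theorem RL.nl_swp {i₀ iu iN : Fin 3} (δ : ℝ) {r w lam P : ℕ} (hr : r ≤ J) (hP : w + lam ≤ P)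
    {A B : F.Ω → Prop} (hB : Sub B A) {y : F.Ω → Pln} (h : RL F i₀ iN iu r w lam P A y)
    (hs : ∀ ω, B ω → 1 / 5 ≤ |(y ω).s|) :
    NL F i₀ iu iN δ r w lam P A B (fun ω => swp (y ω)) := by
  obtain ⟨φ, hφ⟩ := h.vis
  obtain ⟨ψ, hψ⟩ := h.con
  refine ⟨fun ω hω => incP_swp hP (h.inc ω (hB ω hω)) (hs ω hω),
    ⟨fun u => swp (φ u), fun ω hω => by rw [hφ ω (hB ω hω)]⟩,
    ⟨fun u => swp (ψ u), fun ω hω => by rw [hψ ω (hB ω hω)]⟩, fun ω v hω hv => ?_⟩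
  obtain ⟨a1, a2⟩ := hv.inc (hB ω hω) hr h.inc h.vis
  have hI := h.inc ω (hB ω hω)
  have hs0 : 0 < |(y ω).s| := by have := hs ω hω; linarith
  have hs1 : (y ω).s ≠ 0 := abs_pos.1 hs0
  have hinv : |1 / (y ω).s| ≤ 5 := by
    rw [abs_div, abs_one, div_le_iff₀ hs0]
    have := hs ω hω
    linarith
  have k1 : (2 : ℝ) ^ w / 2 ^ P ≤ 1 / 2 ^ lam := by
    rw [div_le_div_iff₀ (by positivity) (by positivity), one_mul, ← pow_add]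
    exact pow_le_pow_right₀ (by norm_num) hP
  have k0 : (0 : ℝ) < 1 / 2 ^ lam := by positivity
  constructor
  · show |fu i₀ iu (-((y ω).c + (y ω).s * (y ω).e)) v| ≤ 20 / 2 ^ lam
    have e : fu i₀ iu (-((y ω).c + (y ω).s * (y ω).e)) v =
        fn i₀ iN iu (y ω).c (y ω).s v - (y ω).s * fu i₀ iN (y ω).e v := by
      unfold fu fn
      ring
    rw [e]
    refine (abs_sub _ _).trans ?_
    have e1 : |(y ω).s * fu i₀ iN (y ω).e v| ≤ 4 * (4 / 2 ^ lam) := by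
      rw [abs_mul]
      exact mul_le_mul hI.s_le a1 (abs_nonneg _) (by norm_num)
    have e2 : (20 : ℝ) / 2 ^ lam = 20 * (1 / 2 ^ lam) := by ring
    have e3 : (4 : ℝ) * (4 / 2 ^ lam) = 16 * (1 / 2 ^ lam) := by ring
    rw [e3] at e1
    rw [e2]
    linarith
  · show |fn i₀ iu iN ((y ω).c / (y ω).s) (1 / (y ω).s) v| ≤ 20 * (2 ^ w / 2 ^ P)
    have e : fn i₀ iu iN ((y ω).c / (y ω).s) (1 / (y ω).s) v =
        1 / (y ω).s * fn i₀ iN iu (y ω).c (y ω).s v := by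
      unfold fn
      field_simp
      ring
    rw [e, abs_mul]
    have := mul_le_mul hinv a2 (abs_nonneg _) (by norm_num : (0 : ℝ) ≤ 5)
    linarith

/-- The fans turn in the direction `iu`, if there is a plank in the normal form `(iu, iN)`. -/
theorem tn_u {i₀ iu iN : Fin 3} (hi : ∀ j : Fin 3, j = i₀ ∨ j = iu ∨ j = iN) {r w lam P w' : ℕ}
    (hr : r ≤ J) (hw : w ≤ w') (hw' : w' ≤ J) {A B : F.Ω → Prop} (hB : Sub B A)
    {y : F.Ω → Pln} (h : RL F i₀ iu iN r w lam P A y) {δ μ ρ η : ℝ} (hδ : 0 < δ) (hμ : 0 < μ)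
    {e n : (Fin 3 → ℤ) × (ℕ × F.ζ) → Fin 3 → ℝ} (hl : OnL i₀ ρ (Fam.pt F) F.d A e n)
    (hρ : 0 ≤ ρ) (hρη : ρ ≤ η) (hE : (2 : ℝ) ^ w / 2 ^ P ≤ η) (hη : 2 ^ 19 * η ≤ δ * μ)
    {ω ω' : F.Ω} (hω : B ω) (hω' : B ω') (hs : slam F w' ω' = slam F w' ω) {v v' : Fin 3 → ℝ}
    (hv : Mt F i₀ δ A ω v) (hv' : Mt F i₀ δ A ω' v')
    (hj : ∃ j, μ < |e (Fam.pt F ω) j - e (Fam.pt F ω') j|) :
    μ / 8 ≤ |e (Fam.pt F ω) iu - e (Fam.pt F ω') iu| := by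
  obtain ⟨j, hj⟩ := hj
  have hη0 : 0 ≤ η := hρ.trans hρη
  have hδμ : 0 < δ * μ := mul_pos hδ hμ
  have l0 := fun j => hv.line hl j
  have l0' := fun j => hv'.line hl j
  rcases hi j with rfl | rfl | rfl
  · exfalso
    have key : ∀ {a v₀ : ℝ}, δ ≤ |v₀| → |v₀ - a * v₀| ≤ 2 * ρ → |1 - a| * δ ≤ 2 * ρ := by
      intro a v₀ h1 h2
      have e1 : (1 - a) * v₀ = v₀ - a * v₀ := by ring
      calc |1 - a| * δ ≤ |1 - a| * |v₀| := mul_le_mul_of_nonneg_left h1 (abs_nonneg _)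
        _ = |v₀ - a * v₀| := by rw [← abs_mul, e1]
        _ ≤ 2 * ρ := h2
    have k1 := key hv.big (l0 j)
    have k2 := key hv'.big (l0' j)
    have k3 : |e (Fam.pt F ω) j - e (Fam.pt F ω') j| ≤
        |1 - e (Fam.pt F ω') j| + |1 - e (Fam.pt F ω) j| := by
      have e1 : e (Fam.pt F ω) j - e (Fam.pt F ω') j =
          (1 - e (Fam.pt F ω') j) - (1 - e (Fam.pt F ω) j) := by ring
      rw [e1]
      exact abs_sub _ _
    have k4 : μ * δ < (|1 - e (Fam.pt F ω') j| + |1 - e (Fam.pt F ω) j|) * δ :=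
      mul_lt_mul_of_pos_right (hj.trans_le k3) hδ
    have k5 : (4 : ℝ) * ρ ≤ 2 ^ 19 * η := by
      have : (0 : ℝ) ≤ η := hη0
      norm_num
      linarith
    linarith
  · linarith
  · have yy : y ω' = y ω := h.eq hw hw' (hB ω hω) (hB ω' hω') hs
    have f1 := (hv.inc (hB ω hω) hr h.inc h.vis).2
    have f2 := (hv'.inc (hB ω' hω') hr h.inc h.vis).2
    rw [yy] at f2
    have k := turn_two (c := (y ω).c) (s := (y ω).s) (E := 4 * η) (h.inc ω (hB ω hω)).s_le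
      hv.big hv'.big (l0 iu) (l0 j) (l0' iu) (l0' j)
      (f1.trans (by linarith)) (f2.trans (by linarith)) hδ
    have k2 : μ * δ < |e (Fam.pt F ω) j - e (Fam.pt F ω') j| * δ :=
      mul_lt_mul_of_pos_right hj hδ
    have k3 : μ / 8 * δ ≤ |e (Fam.pt F ω) iu - e (Fam.pt F ω') iu| * δ := by
      norm_num at hη
      linarith
    exact le_of_mul_le_mul_right k3 hδ

/-- The plank in the opposite normal form has a slope bounded from below. -/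
theorem s_low {i₀ iu iN : Fin 3} (hi : ∀ j : Fin 3, j = i₀ ∨ j = iu ∨ j = iN)
    {r w lam P r₁ w₁ lam₁ P₁ w' : ℕ} (hr : r ≤ J) (hw : w ≤ w') (hr₁ : r₁ ≤ J) (hw₁ : w₁ ≤ w')
    (hw' : w' ≤ J) {A B : F.Ω → Prop} (hB : Sub B A)
    {y z : F.Ω → Pln} (hy : RL F i₀ iu iN r w lam P A y) (hz : RL F i₀ iN iu r₁ w₁ lam₁ P₁ A z)
    {δ μ ρ η : ℝ} (hδ : 0 < δ) (hμ : 0 < μ)
    {e n : (Fin 3 → ℤ) × (ℕ × F.ζ) → Fin 3 → ℝ} (hl : OnL i₀ ρ (Fam.pt F) F.d A e n)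
    (hρ : 0 ≤ ρ) (hρη : ρ ≤ η) (hE : (2 : ℝ) ^ w / 2 ^ P ≤ η) (hE₁ : (2 : ℝ) ^ w₁ / 2 ^ P₁ ≤ η)
    (hη : 2 ^ 19 * η ≤ δ * μ) (hT : Tn F i₀ δ μ w' A B e) :
    ∀ ω, B ω → 1 / 5 ≤ |(z ω).s| := by
  intro ω hω
  obtain ⟨ω', hω', hs, v, v', hv, hv', hj⟩ := hT ω hω
  have t1 := tn_u hi hr hw hw' hB hy hδ hμ hl hρ hρη hE hη hω hω' hs hv hv' hj
  have hη0 : 0 ≤ η := hρ.trans hρη
  have l0 := fun j => hv.line hl j
  have l0' := fun j => hv'.line hl j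
  have yy : y ω' = y ω := hy.eq hw hw' (hB ω hω) (hB ω' hω') hs
  have zz : z ω' = z ω := hz.eq hw₁ hw' (hB ω hω) (hB ω' hω') hs
  have f1 := (hv.inc (hB ω hω) hr hy.inc hy.vis).2
  have f2 := (hv'.inc (hB ω' hω') hr hy.inc hy.vis).2
  have g1 := (hv.inc (hB ω hω) hr₁ hz.inc hz.vis).2
  have g2 := (hv'.inc (hB ω' hω') hr₁ hz.inc hz.vis).2
  rw [yy] at f2
  rw [zz] at g2
  have sy := (hy.inc ω (hB ω hω)).s_le
  have sz := (hz.inc ω (hB ω hω)).s_le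
  have hη' : 524288 * η ≤ δ * μ := by
    norm_num at hη
    linarith
  -- the fans turn in the direction `iN`
  have k := turn_two (c := (z ω).c) (s := (z ω).s) (E := 4 * η) sz
    hv.big hv'.big (l0 iN) (l0 iu) (l0' iN) (l0' iu)
    (g1.trans (by linarith)) (g2.trans (by linarith)) hδ
  have t2 : μ / 64 ≤ |e (Fam.pt F ω) iN - e (Fam.pt F ω') iN| := by
    have k2 : μ / 8 * δ ≤ |e (Fam.pt F ω) iu - e (Fam.pt F ω') iu| * δ :=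
      mul_le_mul_of_nonneg_right t1 hδ.le
    have k3 : μ / 64 * δ ≤ |e (Fam.pt F ω) iN - e (Fam.pt F ω') iN| * δ := by linarith
    exact le_of_mul_le_mul_right k3 hδ
  -- comparison
  have cmb : ∀ {v : Fin 3 → ℝ}, |fn i₀ iu iN (y ω).c (y ω).s v| ≤ 4 * (2 ^ w / 2 ^ P) →
      |fn i₀ iN iu (z ω).c (z ω).s v| ≤ 4 * (2 ^ w₁ / 2 ^ P₁) →
      |((y ω).c - (y ω).s * (z ω).c) * v i₀ + (1 - (y ω).s * (z ω).s) * v iN| ≤ 20 * η := by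
    intro v h1 h2
    have e1 : ((y ω).c - (y ω).s * (z ω).c) * v i₀ + (1 - (y ω).s * (z ω).s) * v iN =
        fn i₀ iu iN (y ω).c (y ω).s v - (y ω).s * fn i₀ iN iu (z ω).c (z ω).s v := by
      unfold fn
      ring
    rw [e1]
    refine (abs_sub _ _).trans ?_
    rw [abs_mul]
    have h3 : |(y ω).s| * |fn i₀ iN iu (z ω).c (z ω).s v| ≤ 4 * (4 * η) :=
      mul_le_mul sy (h2.trans (by linarith)) (abs_nonneg _) (by norm_num)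
    linarith
  have hμ64 : 0 < μ / 64 := by linarith
  have c := (core_fr (E := 20 * η) hδ hμ64 hv.big hv'.big (l0 iN) (l0' iN) (cmb f1 g1)
    (cmb f2 g2) t2 (by linarith)).1
  have c2 : 4 * (20 * η) / (δ * (μ / 64)) ≤ 1 / 5 := by
    rw [div_le_iff₀ (by positivity)]
    linarith
  have c3 := c.trans c2
  have c4 : 4 / 5 ≤ |(y ω).s * (z ω).s| := by
    rw [abs_le] at c3
    have : (4 : ℝ) / 5 ≤ (y ω).s * (z ω).s := by linarith [c3.2]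
    exact this.trans (le_abs_self _)
  rw [abs_mul] at c4
  have c5 : |(y ω).s| * |(z ω).s| ≤ 4 * |(z ω).s| :=
    mul_le_mul_of_nonneg_right sy (abs_nonneg _)
  linarith

/-- The slope of a label is near the slope of the fan. -/
theorem nl_slope {i₀ iu iN : Fin 3} {δ ρ : ℝ} {r w lam P : ℕ} {A B : F.Ω → Prop}
    {y : F.Ω → Pln} (h : NL F i₀ iu iN δ r w lam P A B y) (hδ : 0 < δ)
    {e n : (Fin 3 → ℤ) × (ℕ × F.ζ) → Fin 3 → ℝ} (hl : OnL i₀ ρ (Fam.pt F) F.d A e n)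
    (hρ : ρ ≤ 1 / 2 ^ lam) {ω : F.Ω} (hω : B ω) {v : Fin 3 → ℝ} (hv : Mt F i₀ δ A ω v) :
    |e (Fam.pt F ω) iu - (y ω).e| ≤ 22 / δ * (1 / 2 ^ lam) := by
  have a1 := (h.vel ω v hω hv).1
  have a2 := hv.line hl iu
  have a3 := hv.big
  have e1 : (e (Fam.pt F ω) iu - (y ω).e) * v i₀ =
      fu i₀ iu (y ω).e v - (v iu - e (Fam.pt F ω) iu * v i₀) := by
    unfold fu
    ring
  have a4 : |e (Fam.pt F ω) iu - (y ω).e| * δ ≤ 20 / 2 ^ lam + 2 * ρ := by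
    calc |e (Fam.pt F ω) iu - (y ω).e| * δ ≤ |e (Fam.pt F ω) iu - (y ω).e| * |v i₀| :=
          mul_le_mul_of_nonneg_left a3 (abs_nonneg _)
      _ = |fu i₀ iu (y ω).e v - (v iu - e (Fam.pt F ω) iu * v i₀)| := by rw [← abs_mul, e1]
      _ ≤ _ := (abs_sub _ _).trans (add_le_add a1 a2)
  have e2 : 22 / δ * (1 / (2 : ℝ) ^ lam) = (22 * (1 / 2 ^ lam)) / δ := by ring
  rw [e2, le_div_iff₀ hδ]
  have e3 : (20 : ℝ) / 2 ^ lam = 20 * (1 / 2 ^ lam) := by ring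
  rw [e3] at a4
  linarith

/-- Two labels in the same normal form. -/
theorem nl_cmp {i₀ iu iN : Fin 3} {δ ρ μ : ℝ} {r w lam P r₁ w₁ lam₁ P₁ w' : ℕ}
    {A B : F.Ω → Prop} {y z : F.Ω → Pln} (hy : NL F i₀ iu iN δ r w lam P A B y)
    (hz : NL F i₀ iu iN δ r₁ w₁ lam₁ P₁ A B z) (hw : w ≤ w') (hw₁ : w₁ ≤ w') (hw' : w' ≤ J)
    (hδ : 0 < δ) (hμ : 0 < μ) {e n : (Fin 3 → ℤ) × (ℕ × F.ζ) → Fin 3 → ℝ}
    (hl : OnL i₀ ρ (Fam.pt F) F.d A e n) (hρ : ρ ≤ 1 / 2 ^ lam₁) (hρμ : 8 * ρ ≤ δ * μ)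
    {ω ω' : F.Ω} (hω : B ω) (hω' : B ω') (hs : slam F w' ω' = slam F w' ω) {v v' : Fin 3 → ℝ}
    (hv : Mt F i₀ δ A ω v) (hv' : Mt F i₀ δ A ω' v')
    (hj : μ ≤ |e (Fam.pt F ω) iu - e (Fam.pt F ω') iu|) :
    |(y ω).s - (z ω).s| ≤ 80 / (δ * μ) * (2 ^ w / 2 ^ P + 2 ^ w₁ / 2 ^ P₁) ∧
      |((y ω).c - (z ω).c) + ((y ω).s - (z ω).s) * (z ω).e| ≤
        (40 / δ + 80 / (δ * μ) * (22 / δ * (1 / 2 ^ lam₁))) *
          (2 ^ w / 2 ^ P + 2 ^ w₁ / 2 ^ P₁) := by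
  obtain ⟨E, hE⟩ : ∃ E : ℝ, E = 2 ^ w / 2 ^ P + 2 ^ w₁ / 2 ^ P₁ := ⟨_, rfl⟩
  have hE0 : 0 ≤ E := by rw [hE]; positivity
  have yy : y ω' = y ω := hy.eq hw hw' hω hω' hs
  have zz : z ω' = z ω := hz.eq hw₁ hw' hω hω' hs
  have f1 := (hy.vel ω v hω hv).2
  have f2 := (hy.vel ω' v' hω' hv').2
  have g1 := (hz.vel ω v hω hv).2
  have g2 := (hz.vel ω' v' hω' hv').2
  rw [yy] at f2
  rw [zz] at g2
  have cmb : ∀ {v : Fin 3 → ℝ}, |fn i₀ iu iN (y ω).c (y ω).s v| ≤ 20 * (2 ^ w / 2 ^ P) →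
      |fn i₀ iu iN (z ω).c (z ω).s v| ≤ 20 * (2 ^ w₁ / 2 ^ P₁) →
      |((y ω).c - (z ω).c) * v i₀ + ((y ω).s - (z ω).s) * v iu| ≤ 20 * E := by
    intro v h1 h2
    have e1 : ((y ω).c - (z ω).c) * v i₀ + ((y ω).s - (z ω).s) * v iu =
        fn i₀ iu iN (y ω).c (y ω).s v - fn i₀ iu iN (z ω).c (z ω).s v := by
      unfold fn
      ring
    rw [e1, hE, mul_add]
    exact (abs_sub _ _).trans (add_le_add h1 h2)
  obtain ⟨k1, k2⟩ := core_fr hδ hμ hv.big hv'.big (hv.line hl iu) (hv'.line hl iu)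
    (cmb f1 g1) (cmb f2 g2) hj hρμ
  have k3 := nl_slope hz hδ hl hρ hω hv
  rw [← hE]
  have e1 : 4 * (20 * E) / (δ * μ) = 80 / (δ * μ) * E := by ring
  have e2 : 2 * (20 * E) / δ = 40 / δ * E := by ring
  rw [e1] at k1
  rw [e2] at k2
  refine ⟨k1, ?_⟩
  have e3 : ((y ω).c - (z ω).c) + ((y ω).s - (z ω).s) * (z ω).e =
      (((y ω).c - (z ω).c) + ((y ω).s - (z ω).s) * e (Fam.pt F ω) iu) -
        ((y ω).s - (z ω).s) * (e (Fam.pt F ω) iu - (z ω).e) := by ring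
  rw [e3]
  refine (abs_sub _ _).trans ?_
  rw [abs_mul]
  have k4 : |(y ω).s - (z ω).s| * |e (Fam.pt F ω) iu - (z ω).e| ≤
      80 / (δ * μ) * E * (22 / δ * (1 / 2 ^ lam₁)) :=
    mul_le_mul k1 k3 (abs_nonneg _) (by positivity)
  have e4 : (40 / δ + 80 / (δ * μ) * (22 / δ * (1 / 2 ^ lam₁))) * E =
      40 / δ * E + 80 / (δ * μ) * E * (22 / δ * (1 / (2 : ℝ) ^ lam₁)) := by ring
  rw [e4]
  exact add_le_add k2 k4

end one

end Pool.PZ
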